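import Pool.Agent.L0h41.EP.D

set_option autoImplicit false

/-!
# PRIME values `|f(x, y)|` with `x + y = n` and the smallest `x`, for a positive proportion of the `n`, for ALL
polynomials of degree one in `y`

Let `f(x, y) = g(x) y + h(x)` with `g ≠ 0`, `h` in `ℤ[x]` coprime over `ℚ`, suppose that `f` is not a polynomial
in `x + y`, and that no prime divides all the values of `f` (every admissible `f` of degree one in `y` has these
properties). There are `κ > 0` and `T₀` such that for all `E`, all `X ≥ X₀(E)` and all `T₀ ≤ T ≤ (log X)^E`, at least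
`κ min(1, T / log X) X` of the integers `n ≤ X` have at least `max(1, κ T / log X)` representations `n = x + y` with
`x, y ≥ 1`, `x ≤ T` and `|f(x, y)|` prime. In particular, for every `λ > 0`, however small, a positive proportion of
all `n` has a representation `n = x + y` with `1 ≤ x ≤ λ log n` and `|f(x, y)|` prime.

Proof: `f(x, n - x) = g(x) n + (h(x) - x g(x))` is a family of linear forms in `n`; first moment by the prime number
theorem in arithmetic progressions, second moment by the sieve with the singular series on average;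
`Pool/Agent/L0h41/EP`.
-/

namespace Pool.Agent.Results.MP_0da313_nt.PrimesLinearInY

open Finset Polynomial

/-- The polynomial `f(x, y) = g(x) y + h(x)`. -/
noncomputable def f (g h : ℤ[X]) (x y : ℤ) : ℤ := g.eval x * y + h.eval x

open Classical in
/-- The number of the integers `1 ≤ x ≤ T` for which there is a positive integer `y` with `x + y = n` such that
`|f(x, y)|` is prime. -/
noncomputable def primeX (g h : ℤ[X]) (n T : ℕ) : ℕ :=
  ((Icc 1 T).filter (fun x : ℕ => ∃ y : ℕ, 1 ≤ y ∧ x + y = n ∧ (f g h x y).natAbs.Prime)).card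

lemma cnt_le (g h g' h' : ℤ[X]) (s : ℤ) (hs : s = 1 ∨ s = -1)
    (hval : ∀ (x : ℕ) (n : ℤ), g'.eval (x : ℤ) * n + h'.eval (x : ℤ) = s * f g h x (n - x)) (n T : ℕ)
    (hT : T < n) : Pool.Agent.L0h41.EP.cntP g' h' T n ≤ primeX g h n T := by
  classical
  unfold Pool.Agent.L0h41.EP.cntP primeX
  apply card_le_card
  intro j hj
  rw [mem_filter] at hj ⊢
  obtain ⟨h1, h2⟩ := hj
  have hj2 := mem_Icc.1 h1
  obtain ⟨b, hb⟩ : ∃ b : ℕ, n = j + b := ⟨n - j, by omega⟩
  have e : ((n : ℕ) : ℤ) - (j : ℤ) = (b : ℤ) := by rw [hb]; push_cast; ring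
  rw [hval, e] at h2
  have hab : (s * f g h j b).natAbs = (f g h j b).natAbs := by
    rcases hs with h | h <;> rw [h] <;> simp
  rw [hab] at h2
  exact ⟨h1, b, by omega, hb.symm, h2⟩

open Classical in
theorem result (g h : ℤ[X]) (hg : g ≠ 0)
    (hcop : IsCoprime (g.map (Int.castRingHom ℚ)) (h.map (Int.castRingHom ℚ)))
    (hxy : ¬ ∃ F : ℤ[X], ∀ x y : ℤ, f g h x y = F.eval (x + y))
    (hfix : ∀ p : ℕ, p.Prime → ∃ x y : ℤ, ¬ (p : ℤ) ∣ f g h x y) :
    ∃ (κ : ℝ) (T₀ : ℕ), 0 < κ ∧ ∀ E : ℕ, ∃ X₀ : ℕ, ∀ X : ℕ, X₀ ≤ X → ∀ T : ℕ, T₀ ≤ T →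
      (T : ℝ) ≤ Real.log X ^ E →
      κ * min 1 (T / Real.log X) * X ≤ (((Icc 1 X).filter (fun n : ℕ => 1 ≤ primeX g h n T ∧
        κ * (T / Real.log X) ≤ primeX g h n T)).card : ℝ) := by
  obtain ⟨s, hs, hl⟩ : ∃ s : ℤ, (s = 1 ∨ s = -1) ∧ 0 < (C s * g).leadingCoeff := by
    rcases lt_or_gt_of_ne (leadingCoeff_ne_zero.2 hg) with h1 | h1
    · refine ⟨-1, Or.inr rfl, ?_⟩
      have e : C (-1 : ℤ) * g = -g := by simp
      rw [e, leadingCoeff_neg]
      omega
    · refine ⟨1, Or.inl rfl, ?_⟩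
      rwa [C_1, one_mul]
  obtain ⟨g', hg'⟩ : ∃ g' : ℤ[X], g' = C s * g := ⟨_, rfl⟩
  obtain ⟨h', hh'⟩ : ∃ h' : ℤ[X], h' = C s * (h - Polynomial.X * g) := ⟨_, rfl⟩
  have hss : (C s : ℤ[X]) * C s = 1 := by
    rw [← C_mul]
    rcases hs with h | h <;> rw [h] <;> simp
  have hss2 : s * s = 1 := by rcases hs with h | h <;> rw [h] <;> norm_num
  have hval : ∀ (x n : ℤ), g'.eval x * n + h'.eval x = s * f g h x (n - x) := by
    intro x n
    rw [hg', hh']
    unfold f
    simp only [eval_mul, eval_C, eval_sub, eval_X]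
    ring
  obtain ⟨u, v, R, hbez, hR⟩ := Pool.Agent.L0h41.PE.exists_bez g h hcop
  have hbez' : (C s * (u + v * Polynomial.X)) * g' + (C s * v) * h' = C R := by
    rw [hg', hh', ← hbez]
    calc C s * (u + v * Polynomial.X) * (C s * g) + C s * v * (C s * (h - Polynomial.X * g)) =
        (C s * C s) * (u * g + v * h) := by ring
      _ = _ := by rw [hss, one_mul]
  have hdeg : 0 < g'.natDegree ∨ 0 < h'.natDegree := by
    by_contra hcon
    push Not at hcon
    obtain ⟨d1, d2⟩ := hcon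
    apply hxy
    refine ⟨C (s * g'.coeff 0) * Polynomial.X + C (s * h'.coeff 0), ?_⟩
    intro x y
    have e1 : g'.eval x = g'.coeff 0 := by
      rw [eq_C_of_natDegree_le_zero d1, eval_C, coeff_C_zero]
    have e2 : h'.eval x = h'.coeff 0 := by
      rw [eq_C_of_natDegree_le_zero d2, eval_C, coeff_C_zero]
    have h1 := hval x (x + y)
    rw [e1, e2, add_sub_cancel_left] at h1
    rw [eval_add, eval_mul, eval_C, eval_X, eval_C]
    calc f g h x y = (s * s) * f g h x y := by rw [hss2, one_mul]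
      _ = s * (s * f g h x y) := by ring
      _ = s * (g'.coeff 0 * (x + y) + h'.coeff 0) := by rw [h1]
      _ = _ := by ring
  have hloc : ∀ p : ℕ, p.Prime → ∃ x : ℤ, ¬ ((p : ℤ) ∣ g'.eval x ∧ (p : ℤ) ∣ h'.eval x) := by
    intro p hp
    obtain ⟨x, y, hxy'⟩ := hfix p hp
    refine ⟨x, ?_⟩
    rintro ⟨d1, d2⟩
    apply hxy'
    have h1 := hval x (x + y)
    rw [add_sub_cancel_left] at h1
    have h2 : (p : ℤ) ∣ s * f g h x y := by
      rw [← h1]
      exact dvd_add (d1.mul_right _) d2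
    have h3 : f g h x y = s * (s * f g h x y) := by
      calc f g h x y = (s * s) * f g h x y := by rw [hss2, one_mul]
        _ = s * (s * f g h x y) := by ring
    rw [h3]
    exact h2.mul_left _
  obtain ⟨κ, T₀, hκ, H⟩ := Pool.Agent.L0h41.EP.pencilE hbez' hR hdeg (by rw [hg']; exact hl) hloc
  refine ⟨κ / 2, T₀ + 1, by positivity, ?_⟩
  intro E
  have ev1 := Pool.Agent.TH464.PW.logpow_rpow E (2 / κ) 1 (by positivity) one_pos
  have ev2 := Pool.Agent.TH464.PW.logpow_rpow 1 (2 / κ) 1 (by positivity) one_pos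
  have ev3 : ∀ᶠ X : ℕ in Filter.atTop, 1 ≤ Real.log X :=
    (Real.tendsto_log_atTop.comp tendsto_natCast_atTop_atTop).eventually_ge_atTop 1
  obtain ⟨X₀, hX₀⟩ := Filter.eventually_atTop.1 ((((H E).and ev1).and ev2).and ev3)
  refine ⟨X₀, ?_⟩
  intro X hX T hT hTE
  obtain ⟨⟨⟨b1, b2⟩, b3⟩, b4⟩ := hX₀ X hX
  have b1 := b1 T (by omega) hTE
  rw [Real.rpow_one] at b2 b3
  rw [pow_one] at b3
  have hl0 : 0 < Real.log X := by linarith
  have hT1 : (1 : ℝ) ≤ T := by exact_mod_cast (by omega : 1 ≤ T)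
  have b5 : (T : ℝ) ≤ κ / 2 * min 1 (T / Real.log X) * X := by
    rcases le_total 1 ((T : ℝ) / Real.log X) with h1 | h1
    · rw [min_eq_left h1, mul_one]
      have h2 : 2 / κ * (T : ℝ) ≤ X := (mul_le_mul_of_nonneg_left hTE (by positivity)).trans b2
      rw [div_mul_eq_mul_div, div_le_iff₀ hκ] at h2
      linarith
    · rw [min_eq_right h1]
      rw [div_mul_eq_mul_div, div_le_iff₀ hκ] at b3
      have h2 : κ / 2 * (T / Real.log X) * X = (X * κ) * (T / (2 * Real.log X)) := by
        field_simp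
      rw [h2]
      calc (T : ℝ) = (2 * Real.log X) * (T / (2 * Real.log X)) := by field_simp
        _ ≤ _ := mul_le_mul_of_nonneg_right b3 (by positivity)
  have hsub : (Icc 1 X).filter (fun n => 1 ≤ Pool.Agent.L0h41.EP.cntP g' h' T n ∧
        κ * (T / Real.log X) ≤ Pool.Agent.L0h41.EP.cntP g' h' T n) ⊆
      ((Icc 1 X).filter (fun n : ℕ => 1 ≤ primeX g h n T ∧
        κ / 2 * (T / Real.log X) ≤ primeX g h n T)) ∪ Icc 1 T := by
    intro n hn
    rw [mem_filter] at hn
    obtain ⟨a1, a2, a3⟩ := hn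
    have hn1 := mem_Icc.1 a1
    rw [mem_union]
    rcases Nat.lt_or_ge T n with h1 | h1
    · left
      rw [mem_filter]
      have h2 := cnt_le g h g' h' s hs (fun x m => hval x m) n T h1
      refine ⟨a1, a2.trans h2, ?_⟩
      have h3 : (Pool.Agent.L0h41.EP.cntP g' h' T n : ℝ) ≤ primeX g h n T := by exact_mod_cast h2
      have h4 : 0 ≤ κ * (T / Real.log X) := by positivity
      linarith
    · right
      rw [mem_Icc]
      omega
  have h6 : (((Icc 1 X).filter (fun n => 1 ≤ Pool.Agent.L0h41.EP.cntP g' h' T n ∧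
        κ * (T / Real.log X) ≤ Pool.Agent.L0h41.EP.cntP g' h' T n)).card : ℝ) ≤
      ((Icc 1 X).filter (fun n : ℕ => 1 ≤ primeX g h n T ∧
        κ / 2 * (T / Real.log X) ≤ primeX g h n T)).card + T := by
    have h7 := (card_le_card hsub).trans (card_union_le _ _)
    rw [Nat.card_Icc 1 T, Nat.add_sub_cancel] at h7
    exact_mod_cast h7
  linarith

end Pool.Agent.Results.MP_0da313_nt.PrimesLinearInY
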