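import Pool.Agent.L0h41.SI.F
import Pool.Agent.Y882.KW.Num

set_option autoImplicit false

/-!
# Almost prime values of every admissible quadratic polynomial in almost all short intervals, in all
residue classes to all moduli up to a power of `X`

Let `(a, b, c)` be ANY admissible triple, `f(t) = a t² + b t + c`, and let `r = 5`, `1 / 2 ≤ t < 1`,
`z = 2 t / 5`, or `r = 4`, `269 / 500 ≤ t < 1`, `z = t / 4`, or `r = 3`, `29 / 40 ≤ t < 1`, `z = t / 4`. For all
`0 < h ≤ 1` and `ε > 0` there are `κ, δ > 0` such that for all large `X` all but at most `X ^ (2 t - h + ε)` of the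
integers `M ≤ X` have the following property, SIMULTANEOUSLY for all moduli `q ≤ X ^ κ` and all classes `u`
modulo `q` with `gcd(f(u), q) = 1`: the interval `(M, M + X ^ h]` contains at least
`δ X ^ h / (φ_f(q) log X)` integers `m ≡ u (mod q)` such that `f(m)` has at most `r` prime factors, all of them
`≥ X ^ z`. Here `φ_f(q) = q ∏_{p ∣ q} (1 - ρ_f(p) / p)` is the number of these classes.

Thus, with three prime factors, in almost all intervals of length `X ^ h`, `h > 9 / 20`; with four prime factors,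
`h > 19 / 250`; with five prime factors, every `h > 0`; the number of exceptions is smaller than `X` by a power of
`X`.

Proof: the weighted linear sieve with a well-factorable error term of level `X ^ t`, `t ≥ 1 / 2`, estimated in mean
square over the positions `M` (`Pool.Agent.Y882.SI.engI`), applied to the polynomials `f(q x + u)`, and the union
bound over `q` and `u`; the file `Pool/Agent/L0h41/SI`.
-/

namespace Pool.Agent.Results.MP_a17b09_nt.ShortIntervalsAllClasses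

open Finset Filter

/-- The polynomial. -/
def f (a b c : ℤ) (t : ℕ) : ℤ := a * (t : ℤ) ^ 2 + b * (t : ℤ) + c

/-- The admissible triples of Conjecture F. -/
def Admissible (a b c : ℤ) : Prop :=
  0 < a ∧ Int.gcd (Int.gcd a b : ℤ) c = 1 ∧ ¬ (Even (a + b) ∧ Even c) ∧ ¬ IsSquare (b ^ 2 - 4 * a * c)

/-- The number `ρ_f(p)` of the zeros of `f` modulo `p`. -/
def rho (a b c : ℤ) (p : ℕ) : ℕ := ((range p).filter (fun n : ℕ => (p : ℤ) ∣ f a b c n)).card

/-- `φ_f(q) = q ∏_{p ∣ q} (1 - ρ_f(p) / p)`, the number of the classes `u` modulo `q` with `gcd(f(u), q) = 1`. -/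
noncomputable def phi (a b c : ℤ) (q : ℕ) : ℝ :=
  q * ∏ p ∈ q.primeFactors, (1 - (rho a b c p : ℝ) / p)

open Classical in
/-- The number of the integers `m ∈ (M, M + H]` with `m ≡ u (mod q)` for which `|f(m)|` has at most `r` prime factors,
counted with multiplicity, all of them `≥ w`. -/
noncomputable def almostPrimes (a b c : ℤ) (q u r : ℕ) (w : ℝ) (M H : ℕ) : ℕ :=
  ((Ioc M (M + H)).filter (fun m : ℕ => m ≡ u [MOD q] ∧ (f a b c m).natAbs.primeFactorsList.length ≤ r ∧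
    ∀ p : ℕ, p.Prime → (p : ℤ) ∣ f a b c m → w ≤ (p : ℝ))).card

/-- For all `q ≤ Q` and all classes `u` modulo `q` with `gcd(f(u), q) = 1` there are at least `B / φ_f(q)` of these
integers in `(M, M + H]`. -/
def AllClasses (a b c : ℤ) (r : ℕ) (w Q B : ℝ) (M H : ℕ) : Prop :=
  ∀ q u : ℕ, 0 < q → (q : ℝ) ≤ Q → u < q → Int.gcd (f a b c u) q = 1 →
    B / phi a b c q ≤ (almostPrimes a b c q u r w M H : ℝ)

open Classical in
theorem result (a b c : ℤ) (hadm : Admissible a b c) (r : ℕ) (t z : ℝ)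
    (hpar : (r = 5 ∧ 1 / 2 ≤ t ∧ z = 2 / 5 * t) ∨ (r = 4 ∧ 269 / 500 ≤ t ∧ z = t / 4) ∨
      (r = 3 ∧ 29 / 40 ≤ t ∧ z = t / 4)) (ht : t < 1) (h ε : ℝ) (hh : 0 < h) (h1 : h ≤ 1)
    (hε : 0 < ε) :
    ∃ κ δ : ℝ, 0 < κ ∧ 0 < δ ∧ ∀ᶠ X : ℕ in atTop,
      (((Icc 1 X).filter (fun M : ℕ => ¬ AllClasses a b c r ((X : ℝ) ^ z) ((X : ℝ) ^ κ)
        (δ * (X : ℝ) ^ h / Real.log X) M ⌊(X : ℝ) ^ h⌋₊)).card : ℝ) ≤ (X : ℝ) ^ (2 * t - h + ε) := by
  obtain ⟨ha, hg, hpr, hD⟩ := hadm
  obtain ⟨c1, v0, hy⟩ := Pool.Agent.L0h41.SI.hyp_q a b c ha (by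
    rintro p hp ⟨h1, h2, h3⟩
    have h4 : (p : ℤ) ∣ Int.gcd a b := Int.dvd_coe_gcd h1 h2
    have h5 : (p : ℤ) ∣ Int.gcd (Int.gcd a b : ℤ) c := Int.dvd_coe_gcd h4 h3
    rw [hg] at h5
    have h6 : p ∣ 1 := by exact_mod_cast h5
    exact hp.one_lt.ne' (Nat.dvd_one.1 h6)) hpr hD
  have key : ∃ κ δ : ℝ, 0 < κ ∧ 0 < δ ∧ ∃ X0 : ℕ, ∀ X : ℕ, X0 ≤ X →
      (((Icc 1 X).filter (fun M => ∃ q v : ℕ, 0 < q ∧ (q : ℝ) ≤ (X : ℝ) ^ κ ∧ v < q ∧
        Pool.Agent.L0h41.SI.Cop a b c q v ∧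
        (Pool.Agent.L0h41.SI.hc a b c q v r ((X : ℝ) ^ z) M ⌊(X : ℝ) ^ h⌋₊ : ℝ) <
        δ * (X : ℝ) ^ h / (q * Pool.Agent.L0h41.SI.dens a b c q * Real.log X))).card : ℝ) ≤
      (X : ℝ) ^ (2 * t - h + ε) := by
    rcases hpar with ⟨rfl, ht0, rfl⟩ | ⟨rfl, ht0, rfl⟩ | ⟨rfl, ht0, rfl⟩
    · have hc := Pool.Agent.Y882.KW.cond_B t (20 / 31) (by linarith) (by norm_num) (by norm_num)
      obtain ⟨κ, δ, hκ, hδ, X0, H⟩ := Pool.Agent.L0h41.SI.all_lengths a b c c1 v0 hy 5 t (2 / 5 * t)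
        (9 / 10 * t) (20 / 31)
        (1001 / 500) (by linarith) (by linarith) (by linarith) ht (by linarith) (by linarith)
        (by linarith) (by norm_num) hc (by norm_num) (by
          have h3 : (1001 / 500 : ℝ) / (9 / 10 * t) ≤ 4449 / 1000 := by
            rw [div_le_iff₀ (by linarith)]
            linarith
          push_cast
          norm_num at h3 ⊢
          linarith) h ε hh h1 hε
      exact ⟨κ, δ, hκ, hδ, X0, fun X hX => (H X hX).1⟩
    · have hc := Pool.Agent.Y882.KW.cond_A t (8 / 9) (by linarith) (by norm_num) (by norm_num)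
      obtain ⟨κ, δ, hκ, hδ, X0, H⟩ := Pool.Agent.L0h41.SI.all_lengths a b c c1 v0 hy 4 t (t / 4)
        (24 / 25 * t) (8 / 9)
        (2001 / 1000) (by linarith) (by linarith) (by linarith) ht (by linarith) (by linarith)
        (by linarith) (by norm_num) hc (by norm_num) (by
          have h3 : (2001 / 1000 : ℝ) / (24 / 25 * t) ≤ 3875 / 1000 := by
            rw [div_le_iff₀ (by linarith)]
            linarith
          push_cast
          norm_num at h3 ⊢
          linarith) h ε hh h1 hε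
      exact ⟨κ, δ, hκ, hδ, X0, fun X hX => (H X hX).1⟩
    · have hc := Pool.Agent.Y882.KW.cond_A t (8 / 9) (by linarith) (by norm_num) (by norm_num)
      obtain ⟨κ, δ, hκ, hδ, X0, H⟩ := Pool.Agent.L0h41.SI.all_lengths a b c c1 v0 hy 3 t (t / 4)
        (24 / 25 * t) (8 / 9)
        (2001 / 1000) (by linarith) (by linarith) (by linarith) ht (by linarith) (by linarith)
        (by linarith) (by norm_num) hc (by norm_num) (by
          have h3 : (2001 / 1000 : ℝ) / (24 / 25 * t) ≤ 2875 / 1000 := by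
            rw [div_le_iff₀ (by linarith)]
            linarith
          push_cast
          norm_num at h3 ⊢
          linarith) h ε hh h1 hε
      exact ⟨κ, δ, hκ, hδ, X0, fun X hX => (H X hX).1⟩
  obtain ⟨κ, δ, hκ, hδ, X0, H⟩ := key
  refine ⟨κ, δ, hκ, hδ, eventually_atTop.2 ⟨max X0 3, fun X hX => ?_⟩⟩
  refine le_trans (Nat.cast_le.2 (card_le_card ?_)) (H X ((le_max_left _ _).trans hX))
  intro M hM
  rw [mem_filter] at hM ⊢
  refine ⟨hM.1, ?_⟩
  have h2 := hM.2
  unfold AllClasses at h2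
  push Not at h2
  obtain ⟨q, u, hq, hqX, huq, hcop, hlt⟩ := h2
  refine ⟨q, u, hq, hqX, huq, ?_, ?_⟩
  · intro p hp hpq hpv
    have h3 : (p : ℤ) ∣ Int.gcd (f a b c u) q := Int.dvd_coe_gcd hpv (by exact_mod_cast hpq)
    rw [hcop] at h3
    have h6 : p ∣ 1 := by exact_mod_cast h3
    exact hp.one_lt.ne' (Nat.dvd_one.1 h6)
  · have e1 : almostPrimes a b c q u r ((X : ℝ) ^ z) M ⌊(X : ℝ) ^ h⌋₊ =
        Pool.Agent.L0h41.SI.hc a b c q u r ((X : ℝ) ^ z) M ⌊(X : ℝ) ^ h⌋₊ := by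
      unfold almostPrimes Pool.Agent.L0h41.SI.hc
      congr 1
      ext m
      simp only [mem_filter]
      exact Iff.rfl
    have e2 : phi a b c q = q * Pool.Agent.L0h41.SI.dens a b c q := rfl
    rw [e1, e2] at hlt
    refine hlt.trans_le (le_of_eq ?_)
    rw [div_div]
    congr 1
    ring

end Pool.Agent.Results.MP_a17b09_nt.ShortIntervalsAllClasses
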